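import Pool.Agent.H71.FX.Targets3

/-! # LH: the minimal prefixes -/

set_option autoImplicit false

namespace Pool.Agent.H79.FX

open Pool.Agent.H8.PL Pool.Agent.H71.PF Pool.Agent.H69.Sp Pool.Agent.H8.JS Pool.Agent.H71.FX

theorem lh_mem {l : List Bool} (h : ∀ b, l ≠ List.replicate b false) : true ∈ l := by
  by_contra hc
  refine h l.length (List.eq_replicate_iff.2 ⟨rfl, fun b hb => ?_⟩)
  cases b
  · rfl
  · exact absurd hb hc

theorem pf_LH : T_LH := by
  intro π
  refine ⟨fun h => ?_, ?_⟩
  · cases π with
    | nil => exact absurd rfl (h 0).1
    | cons x l =>
      cases x
      · left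
        have h1 : true ∈ l := by
          apply lh_mem
          rintro b rfl
          exact (h (b + 1)).1 rfl
        exact (List.singleton_sublist.2 h1).cons_cons false
      · right
        have h1 : true ∈ l := by
          apply lh_mem
          rintro b rfl
          exact (h b).2 rfl
        exact (List.singleton_sublist.2 h1).cons_cons true
  · induction π with
    | nil => intro h _; exact absurd rfl (h 0)
    | cons x l ih =>
      intro h h'
      cases x
      · refine (ih ?_ ?_).cons false
        · rintro b rfl
          exact h (b + 1) rfl
        · rintro a b rfl
          exact h' (a + 1) b rfl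
      · have h1 : true ∈ l := by
          apply lh_mem
          rintro b rfl
          exact h' 0 b rfl
        exact (List.singleton_sublist.2 h1).cons_cons true

end Pool.Agent.H79.FX
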